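import Pool.Agent.W684.CF.Final
import Pool.Agent.W924.CF.Chain
import Pool.Agent.W924.CF.Meagre
import Pool.Agent.W924.CF.Mod
import Pool.Agent.W924.CF.NC
import Pool.Agent.W924.CF.Dom
import Pool.Agent.W924.CF.Part
import Pool.Agent.W684.CF.Card2
import Pool.Agent.W540.CFL.AMB
import Pool.Agent.W179.CF.Ext
import Pool.Agent.W179.CF.Raw
import Pool.Agent.W152.CF.Book

/-!
# Strict gaps between `add`, `cofin` and `cof`

* For the meager ideal: ZFC proves `cofin(M) = add(M)`.
* For the null ideal: there is a ccc notion of forcing `P` which forces the combinatorial sentence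
  `PhiFor K L Ω C` (`PhiHolds P K L Ω C` is its literal translation into the forcing language),
  and this sentence implies `add(N) < cofin(N) < cof(N)`.

The notion of forcing is a finite support iteration of length `ω₂`. First a large family of Cohen
reals is added. In the iteration dominating functions and Cohen reals `d` are added, and slaloms
which capture each member `x k` of a given family of `ℵ₁` functions only on one of the sets
`{n | d n}`, `{n | not d n}`, where `d` is a Cohen real which depends on `k`, and the choice
between the two sets is arbitrary (given by a name). This keeps the family of Cohen reals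
uncaptured, so `add(N) = ℵ₁`. But every sequence of `ℵ₁` sigma-ideals which do not contain the
null ideal has `ℵ₁` members which do not contain one common null set.
-/

set_option autoImplicit false

namespace Pool.Agent.Results.MP_145df4_lc.AddCofinCof

open Pool.Agent.W684.CF

/-- (A) ZFC proves that `cofin(M) = add(M)` for the ideal `M` of the meager sets. (B) There are
sets `K`, `L`, `C`, a well-ordered set `Ω`, and a ccc notion of forcing `P` all of whose conditions
force the sentence `PhiFor K L Ω C`. (C) Whenever `Ω` is well-ordered and `PhiFor K L Ω C` holds,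
`add(N) < cofin(N) < cof(N)` for the ideal `N` of the null sets. -/
theorem result :
    cofin MeagerSets = (addNum MeagerSets).ord ∧
    (∃ (K L Ω C P : Type) (_ : LinearOrder Ω) (_ : WellFoundedLT Ω) (_ : Preorder P),
      Nonempty P ∧
      (∀ A : Set P, (∀ p ∈ A, ∀ q ∈ A, p ≠ q → ¬ ∃ r, r ≤ p ∧ r ≤ q) → A.Countable) ∧
      ∀ p : P, p ∈ PhiHolds P K L Ω C) ∧
    (∀ (K L Ω C : Type) (_ : LinearOrder Ω) (_ : WellFoundedLT Ω), PhiFor K L Ω C →
      (addNum NullSets).ord < cofin NullSets ∧ cofin NullSets < (cofNum NullSets).ord) := by
  refine ⟨Pool.Agent.W924.CF.meagre Pool.Agent.W924.CF.chain Pool.Agent.W924.CF.add_le, ?_, ?_⟩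
  · have hE : S_EXT := Pool.Agent.W179.CF.ext_long
    exact exists_forcing (Pool.Agent.W924.CF.notCaptured hE)
      (Pool.Agent.W924.CF.dominated hE Pool.Agent.W179.CF.rawF)
      (Pool.Agent.W924.CF.partlyCaptured hE Pool.Agent.W179.CF.rawF Pool.Agent.W179.CF.rawB)
      (Pool.Agent.W152.CF.book2 card2)
  · intro K L Ω C _ _ h
    exact Pool.Agent.W540.CFL.ambient Pool.Agent.W924.CF.chain Pool.Agent.W924.CF.modulus
      K L Ω C h

end Pool.Agent.Results.MP_145df4_lc.AddCofinCof
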